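import Mathlib

set_option autoImplicit false

namespace Pool.Agent.Results.MP_b26fee_pr.No

open Finset Filter Topology

section
variable {V : Type} [Fintype V] [DecidableEq V]

/-- Expectation over iid bits, each `true` with probability `p`. -/
noncomputable def E (p : ℝ) (g : (V → Bool) → ℝ) : ℝ :=
  ∑ ω : V → Bool, (∏ i, if ω i then p else 1 - p) * g ω

noncomputable def Var (p : ℝ) (g : (V → Bool) → ℝ) : ℝ := E p fun ω => (g ω - E p g) ^ 2

/-- Equal to `ω` on the set with indicator `r` and to `η` elsewhere. -/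
def mix (r ω η : V → Bool) : V → Bool := fun i => if r i then ω i else η i

/-- The clue of the set with indicator `r`. -/
noncomputable def clue (p : ℝ) (f : (V → Bool) → ℝ) (r : V → Bool) : ℝ :=
  Var p (fun ω => E p fun η => f (mix r ω η)) / Var p f

/-- The clue profile. -/
noncomputable def cp (p : ℝ) (f : (V → Bool) → ℝ) (s : ℝ) : ℝ :=
  sInf {u : ℝ | ∃ r : V → Bool,
    ((univ.filter fun i => r i = true).card : ℝ) / Fintype.card V ≤ u ∧ s ≤ clue p f r}

/-- `E[f(ω) f(ω^ε)] - E[f]^2`; the set `r` of resampled coordinates has density `ε`. -/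
noncomputable def noise (p : ℝ) (f : (V → Bool) → ℝ) (ε : ℝ) : ℝ :=
  (E ε fun r => E p fun ω => E p fun η => f ω * f (mix r η ω)) - E p f ^ 2

theorem E_prod (p : ℝ) (φ : V → Bool → ℝ) :
    E p (fun ω => ∏ i, φ i (ω i)) = ∏ i, (p * φ i true + (1 - p) * φ i false) := by
  simp only [E, ← prod_mul_distrib]
  rw [← Fintype.piFinset_univ,
    ← prod_univ_sum (fun _ => univ) (fun i b => (if b then p else 1 - p) * φ i b)]
  simp

theorem E_const (p c : ℝ) : E p (fun _ : V → Bool => c) = c := by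
  have := E_prod (V := V) p fun _ _ => 1
  simp only [E, prod_const_one, mul_one, add_sub_cancel] at this ⊢
  rw [← sum_mul, this, one_mul]

theorem E_add (p : ℝ) (g h : (V → Bool) → ℝ) : E p (fun ω => g ω + h ω) = E p g + E p h := by
  simp only [E, mul_add, sum_add_distrib]

theorem E_mul (p c : ℝ) (g : (V → Bool) → ℝ) : E p (fun ω => c * g ω) = c * E p g := by
  simp only [E, mul_sum, mul_left_comm]

theorem E_mono {p : ℝ} (h0 : 0 ≤ p) (h1 : p ≤ 1) {g h : (V → Bool) → ℝ} (H : ∀ ω, g ω ≤ h ω) :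
    E p g ≤ E p h :=
  sum_le_sum fun ω _ => mul_le_mul_of_nonneg_left (H ω)
    (prod_nonneg fun i _ => by split_ifs <;> linarith)

theorem E_blk {A : Type} [Fintype A] [DecidableEq A] (p : ℝ) (G : A → (V → Bool) → ℝ) :
    E p (fun ω : A × V → Bool => ∏ a, G a fun j => ω (a, j)) = ∏ a, E p (G a) := by
  simp only [E]
  rw [prod_univ_sum, Fintype.piFinset_univ]
  refine Fintype.sum_equiv (Equiv.curry A V Bool) _ _ fun ω => ?_
  rw [Fintype.prod_prod_type, ← prod_mul_distrib]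
  rfl

noncomputable def T (p ε : ℝ) (F : (V → Bool) → (V → Bool) → ℝ) : ℝ :=
  E ε fun r => E p fun ω => E p fun η => F ω (mix r η ω)

theorem T_lin (p ε a b c d : ℝ) (F G H : (V → Bool) → (V → Bool) → ℝ) :
    T p ε (fun ω η => a + b * F ω η + c * G ω η + d * H ω η) =
      a + b * T p ε F + c * T p ε G + d * T p ε H := by
  simp only [T, E_add, E_mul, E_const]

theorem T_blk {A : Type} [Fintype A] [DecidableEq A] (p ε : ℝ)
    (G : (V → Bool) → (V → Bool) → ℝ) :
    T p ε (fun ω ω' : A × V → Bool => ∏ a, G (fun j => ω (a, j)) fun j => ω' (a, j)) =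
      ∏ _a : A, T p ε G := by
  unfold T
  rw [← E_blk ε fun _ r => E p fun ω => E p fun η => G ω (mix r η ω)]
  refine congrArg _ (funext fun r => ?_)
  rw [← E_blk p fun a ω => E p fun η => G ω (mix (fun j => r (a, j)) η ω)]
  refine congrArg _ (funext fun ω => ?_)
  rw [← E_blk p fun a η => G (fun j => ω (a, j)) (mix (fun j => r (a, j)) η fun j => ω (a, j))]
  rfl

theorem T_prod (p ε : ℝ) (φ : V → Bool → Bool → ℝ) :
    T p ε (fun ω ω' => ∏ i, φ i (ω i) (ω' i)) =
      ∏ i, (ε * (p * (p * φ i true true + (1 - p) * φ i true false) +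
        (1 - p) * (p * φ i false true + (1 - p) * φ i false false)) +
        (1 - ε) * (p * φ i true true + (1 - p) * φ i false false)) := by
  have h1 : ∀ r ω : V → Bool, (E p fun η => ∏ i, φ i (ω i) (mix r η ω i)) = _ := fun r ω =>
    E_prod p fun i b => φ i (ω i) (if r i then b else ω i)
  have h2 := fun r : V → Bool => E_prod p fun i c =>
    p * φ i c (if r i then true else c) + (1 - p) * φ i c (if r i then false else c)
  have h3 := E_prod ε fun i s =>
    p * (p * φ i true (if s then true else true) + (1 - p) * φ i true (if s then false else true)) +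
    (1 - p) * (p * φ i false (if s then true else false) +
      (1 - p) * φ i false (if s then false else false))
  simp only [T, h1, h2, h3]
  refine prod_congr rfl fun i _ => ?_
  simp only [if_true, Bool.false_eq_true, if_false]
  ring
end

def χ (k j : ℕ) (b : Bool) : ℝ := if j < k then (if b then 1 else 0) else 1

noncomputable def X (k : ℕ) {M : ℕ} (x : Fin M → Bool) : ℝ := ∏ j : Fin M, χ k j (x j)

theorem core (k M : ℕ) (h : k ≤ M) (c : ℝ) (u : Fin M → ℝ)
    (hu : ∀ j, u j = if (j : ℕ) < k then c else 1) : ∏ j, u j = c ^ k := by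
  simp only [hu]
  rw [prod_ite, prod_const, prod_const_one, mul_one, Fin.card_filter_val_lt, min_eq_right h]

open Classical in
noncomputable def tr (k N M : ℕ) (ω : Fin N × Fin M → Bool) : ℝ :=
  if ∃ a, ∀ j : Fin M, (j : ℕ) < k → ω (a, j) = true then 1 else -1

theorem tr_eq (k N M : ℕ) (ω : Fin N × Fin M → Bool) :
    tr k N M ω = 1 + (-2) * ∏ a, (1 - X k fun j => ω (a, j)) := by
  unfold tr
  split_ifs with h
  · obtain ⟨a, h⟩ := h
    rw [prod_eq_zero (mem_univ a)]
    · simp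
    · rw [X, prod_eq_one fun j _ => ?_, sub_self]
      unfold χ
      split_ifs with h1 h2
      exacts [rfl, absurd (h j h1) h2, rfl]
  · rw [prod_eq_one fun a _ => ?_]
    · norm_num
    · push Not at h
      obtain ⟨j, h1, h2⟩ := h a
      rw [X, prod_eq_zero (mem_univ j) (by simp [χ, h1, h2]), sub_zero]

theorem EX (k M : ℕ) (h : k ≤ M) (p : ℝ) : E p (X k (M := M)) = p ^ k :=
  (E_prod p fun (j : Fin M) b => χ k j b).trans (core k M h _ _ fun j => by
    unfold χ; split_ifs <;> simp_all)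

theorem Etr (k N M : ℕ) (h : k ≤ M) (p : ℝ) : E p (tr k N M) = 1 + (-2) * (1 - p ^ k) ^ N := by
  have h1 : E p (fun x : Fin M → Bool => 1 - X k x) = 1 - p ^ k := by
    have := E_add p (fun _ => 1) fun x : Fin M → Bool => (-1) * X k x
    rw [E_const, E_mul, EX k M h] at this
    simpa [sub_eq_add_neg] using this
  have h2 := E_blk (A := Fin N) p fun _ (x : Fin M → Bool) => 1 - X k x
  rw [funext (tr_eq k N M), E_add, E_const, E_mul, h2, h1]
  simp

theorem Vtr (k N M : ℕ) (h : k ≤ M) (p : ℝ) :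
    Var p (tr k N M) = 1 - (1 + (-2) * (1 - p ^ k) ^ N) ^ 2 := by
  have h1 : (fun ω => (tr k N M ω - E p (tr k N M)) ^ 2) =
      fun ω => (1 + E p (tr k N M) ^ 2) + (-2 * E p (tr k N M)) * tr k N M ω := by
    ext ω
    have : tr k N M ω ^ 2 = 1 := by unfold tr; split_ifs <;> norm_num
    linear_combination this
  rw [Var, h1, E_add, E_const, E_mul, Etr k N M h]
  ring

theorem Ntr (k N M : ℕ) (h : k ≤ M) (ε : ℝ) : noise (1 / 2) (tr k N M) ε =
    4 * ((1 - 2 * (1 / 2) ^ k + (1 / 2 * (1 - ε / 2)) ^ k) ^ N - ((1 - (1 / 2) ^ k) ^ 2) ^ N) := by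
  have a1 : T (1 / 2) ε (fun x _ : Fin M → Bool => X k x) = (1 / 2) ^ k :=
    (T_prod _ ε fun (j : Fin M) b _ => χ k j b).trans (core k M h _ _ fun j => by
      unfold χ; split_ifs <;> simp_all <;> ring)
  have a2 : T (1 / 2) ε (fun _ y : Fin M → Bool => X k y) = (1 / 2) ^ k :=
    (T_prod _ ε fun (j : Fin M) _ b => χ k j b).trans (core k M h _ _ fun j => by
      unfold χ; split_ifs <;> simp_all <;> ring)
  have a3 : T (1 / 2) ε (fun x y : Fin M → Bool => X k x * X k y) = (1 / 2 * (1 - ε / 2)) ^ k := by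
    simp only [X, ← prod_mul_distrib]
    exact (T_prod _ ε fun (j : Fin M) b c => χ k j b * χ k j c).trans (core k M h _ _ fun j => by
      unfold χ; split_ifs <;> simp_all <;> ring)
  have b := fun a b c d => T_lin (1 / 2) ε a b c d (fun x _ : Fin M → Bool => X k x)
    (fun _ y => X k y) fun x y => X k x * X k y
  simp only [a1, a2, a3] at b
  have c1 := T_blk (A := Fin N) (1 / 2) ε fun x _ : Fin M → Bool => 1 - X k x
  have c2 := T_blk (A := Fin N) (1 / 2) ε fun _ y : Fin M → Bool => 1 - X k y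
  have c3 := T_blk (A := Fin N) (1 / 2) ε fun x y : Fin M → Bool => (1 - X k x) * (1 - X k y)
  rw [show (fun x _ : Fin M → Bool => 1 - X k x) = _ from
    funext fun x => funext fun y => (by ring : 1 - X k x =
      1 + (-1) * X k x + 0 * X k y + 0 * (X k x * X k y)), b] at c1
  rw [show (fun _ y : Fin M → Bool => 1 - X k y) = _ from
    funext fun x => funext fun y => (by ring : 1 - X k y =
      1 + 0 * X k x + (-1) * X k y + 0 * (X k x * X k y)), b] at c2
  rw [show (fun x y : Fin M → Bool => (1 - X k x) * (1 - X k y)) = _ from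
    funext fun x => funext fun y => (by ring : (1 - X k x) * (1 - X k y) =
      1 + (-1) * X k x + (-1) * X k y + 1 * (X k x * X k y)), b] at c3
  have d := T_lin (1 / 2) ε 1 (-2) (-2) 4
    (fun ω _ : Fin N × Fin M → Bool => ∏ a, (1 - X k fun j => ω (a, j)))
    (fun _ ω => ∏ a, (1 - X k fun j => ω (a, j)))
    (fun ω η => ∏ a, (1 - X k fun j => ω (a, j)) * (1 - X k fun j => η (a, j)))
  rw [c1, c2, c3] at d
  have e : noise (1 / 2) (tr k N M) ε = T (1 / 2) ε (fun ω η => tr k N M ω * tr k N M η) -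
    E (1 / 2) (tr k N M) ^ 2 := rfl
  rw [e, Etr k N M h, show (fun ω η => tr k N M ω * tr k N M η) = _ from
    funext fun ω => funext fun η => ?_, d]
  · simp only [prod_const, card_univ, Fintype.card_fin]
    rw [← pow_mul _ 2 N, mul_comm 2 N, pow_mul]
    ring
  · rw [tr_eq, tr_eq, prod_mul_distrib]
    ring

theorem Vlow (k M : ℕ) (h : k + 1 ≤ M) : 1 / 2 ≤ Var (1 / 2) (tr (k + 1) (2 ^ (k + 1)) M) := by
  rw [Vtr _ _ _ h]
  set q : ℝ := (1 / 2) ^ (k + 1) with hq
  have q0 : 0 < q := by positivity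
  have q1 : q ≤ 1 := pow_le_one₀ (by norm_num) (by norm_num)
  have q2 : (2 : ℝ) ^ k * q = 1 / 2 := by rw [hq, pow_succ, ← mul_assoc, ← mul_pow]; norm_num
  have a1 := one_add_mul_le_pow (a := -q) (by linarith) (2 ^ k)
  have a2 := one_add_mul_le_pow (a := q) (by linarith) (2 ^ (k + 1))
  have a3 : (1 - q) ^ 2 ^ (k + 1) * (1 + q) ^ 2 ^ (k + 1) ≤ 1 := by
    rw [← mul_pow]
    exact pow_le_one₀ (by nlinarith) (by nlinarith)
  have a4 : (1 - q) ^ 2 ^ (k + 1) = ((1 + -q) ^ 2 ^ k) ^ 2 := by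
    rw [pow_succ, pow_mul, sub_eq_add_neg]
  push_cast at a1 a2
  rw [pow_succ (2 : ℝ) k] at a2
  have a5 : 1 / 4 ≤ (1 - q) ^ 2 ^ (k + 1) := by rw [a4]; nlinarith
  generalize (1 - q) ^ 2 ^ (k + 1) = H at *
  have a6 : H ≤ 1 / 2 := by nlinarith
  nlinarith

theorem Nlim (M : ℕ → ℕ) (h : ∀ k, k + 1 ≤ M k) (ε : ℝ) (h0 : 0 < ε) (h1 : ε < 1) :
    Tendsto (fun k => noise (1 / 2) (tr (k + 1) (2 ^ (k + 1)) (M k)) ε) atTop (𝓝 0) := by
  have t1 := (tendsto_pow_atTop_nhds_zero_of_lt_one (r := 1 - ε / 2) (by linarith)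
    (by linarith)).comp (tendsto_add_atTop_nat 1)
  have t2 := (tendsto_pow_atTop_nhds_zero_of_lt_one (r := (1 / 2 : ℝ)) (by norm_num)
    (by norm_num)).comp (tendsto_add_atTop_nat 1)
  have t3 := Tendsto.const_mul (4 : ℝ) (t1.add t2)
  rw [add_zero, mul_zero] at t3
  refine squeeze_zero_norm (fun k => ?_) t3
  rw [Ntr _ _ _ (h k), mul_pow (1 / 2 : ℝ), Real.norm_eq_abs, abs_mul]
  simp only [Function.comp]
  have q0 : (0 : ℝ) < (1 / 2) ^ (k + 1) := by positivity
  have q1 : ((1 : ℝ) / 2) ^ (k + 1) ≤ 1 / 2 := by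
    rw [pow_succ]
    have : ((1 : ℝ) / 2) ^ k ≤ 1 := pow_le_one₀ (by norm_num) (by norm_num)
    linarith
  have q2 : ((1 : ℝ) / 2) ^ (k + 1) * 2 ^ (k + 1) = 1 := by rw [← mul_pow]; norm_num
  have s0 : 0 ≤ (1 - ε / 2) ^ (k + 1) := pow_nonneg (by linarith) _
  have s1 : (1 - ε / 2) ^ (k + 1) ≤ 1 := pow_le_one₀ (by linarith) (by linarith)
  generalize ((1 : ℝ) / 2) ^ (k + 1) = q at *
  generalize (1 - ε / 2) ^ (k + 1) = s at *
  have b := abs_pow_sub_pow_le (a := 1 - 2 * q + q * s) (b := (1 - q) ^ 2) (n := 2 ^ (k + 1))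
  have b1 : max |1 - 2 * q + q * s| |(1 - q) ^ 2| ^ (2 ^ (k + 1) - 1) ≤ 1 :=
    pow_le_one₀ (le_max_of_le_left (abs_nonneg _)) (max_le (abs_le.2 ⟨by nlinarith, by nlinarith⟩)
      (abs_le.2 ⟨by nlinarith, by nlinarith⟩))
  have b2 : |1 - 2 * q + q * s - (1 - q) ^ 2| ≤ q * (s + q) :=
    abs_le.2 ⟨by nlinarith, by nlinarith⟩
  have b3 : |1 - 2 * q + q * s - (1 - q) ^ 2| * ((2 ^ (k + 1) : ℕ) : ℝ) ≤ s + q := by
    push_cast
    calc _ ≤ q * (s + q) * 2 ^ (k + 1) := by gcongr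
      _ = s + q := by rw [mul_right_comm, q2, one_mul]
  have b4 := b.trans ((mul_le_of_le_one_right (by positivity) b1).trans b3)
  rw [abs_of_pos (by norm_num : (0 : ℝ) < 4)]
  linarith

theorem clue_one (k N M : ℕ) (hV : 0 < Var (1 / 2) (tr k N M)) (r : Fin N × Fin M → Bool)
    (hr : ∀ a, ∀ j : Fin M, (j : ℕ) < k → r (a, j) = true) : clue (1 / 2) (tr k N M) r = 1 := by
  have : (fun ω => E (1 / 2) fun η => tr k N M (mix r ω η)) = tr k N M := by
    ext ω
    rw [← E_const (V := Fin N × Fin M) (1 / 2) (tr k N M ω)]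
    refine congrArg _ (funext fun η => if_congr (exists_congr fun a => forall_congr' fun j =>
      imp_congr_right fun hj => ?_) rfl rfl)
    simp [mix, hr a j hj]
  rw [clue, this, div_self hV.ne']

theorem clue_nonneg {V : Type} [Fintype V] [DecidableEq V] (f : (V → Bool) → ℝ) (r : V → Bool) :
    0 ≤ clue (1 / 2) f r := by
  have : ∀ g : (V → Bool) → ℝ, 0 ≤ Var (1 / 2) g := fun g =>
    (E_const (V := V) (1 / 2) 0).ge.trans
      (E_mono (by norm_num) (by norm_num) fun _ => sq_nonneg _)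
  exact div_nonneg (this _) (this _)

theorem main (k N M : ℕ) (h : k ≤ M) (hM : 0 < M) (hN : 0 < N) (hV : 0 < Var (1 / 2) (tr k N M))
    (δ : ℝ) (h0 : 0 < δ) (h1 : δ < 1) :
    0 < cp (1 / 2) (tr k N M) δ ∧ cp (1 / 2) (tr k N M) δ ≤ k / M ∧
      (δ ^ k) ^ N ≤ E δ (clue (1 / 2) (tr k N M)) := by
  have hMR : (0 : ℝ) < M := by exact_mod_cast hM
  have hNR : (0 : ℝ) < N := by exact_mod_cast hN
  have hm : (k : ℝ) / M ∈ {u : ℝ | ∃ r : Fin N × Fin M → Bool,
      ((univ.filter fun i => r i = true).card : ℝ) / Fintype.card (Fin N × Fin M) ≤ u ∧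
      δ ≤ clue (1 / 2) (tr k N M) r} := by
    refine ⟨fun i => decide ((i.2 : ℕ) < k), le_of_eq ?_, ?_⟩
    · have : (univ.filter fun i : Fin N × Fin M => decide ((i.2 : ℕ) < k) = true) =
          univ ×ˢ univ.filter fun j : Fin M => (j : ℕ) < k := by ext; simp
      rw [this, card_product, Fin.card_filter_val_lt, min_eq_right h]
      simp only [card_univ, Fintype.card_fin, Fintype.card_prod]
      push_cast
      field_simp
    · rw [clue_one k N M hV _ fun a j hj => by simpa using hj]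
      exact h1.le
  have hl : ∀ u ∈ {u : ℝ | ∃ r : Fin N × Fin M → Bool,
      ((univ.filter fun i => r i = true).card : ℝ) / Fintype.card (Fin N × Fin M) ≤ u ∧
      δ ≤ clue (1 / 2) (tr k N M) r}, 1 / ((N : ℝ) * M) ≤ u := by
    rintro u ⟨r, a1, a2⟩
    refine le_trans ?_ a1
    simp only [Fintype.card_fin, Fintype.card_prod]
    push_cast
    gcongr
    rw [Nat.one_le_cast, Nat.one_le_iff_ne_zero, Ne, card_eq_zero, filter_eq_empty_iff]
    intro hr
    have : ∀ ω η, mix r ω η = η := fun ω η => funext fun i => by simp [mix, hr (mem_univ i)]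
    simp only [clue, this] at a2
    rw [Var] at a2
    simp only [E_const, sub_self] at a2
    norm_num at a2
    linarith
  refine ⟨lt_of_lt_of_le (by positivity) (le_csInf ⟨_, hm⟩ hl), csInf_le ⟨_, hl⟩ hm, ?_⟩
  have e := E_blk (A := Fin N) δ fun _ (x : Fin M → Bool) => X k x
  rw [EX k M h, prod_const, card_univ, Fintype.card_fin] at e
  rw [← e]
  refine E_mono h0.le h1.le fun r => ?_
  by_cases hr : ∀ a, ∀ j : Fin M, (j : ℕ) < k → r (a, j) = true
  · rw [clue_one k N M hV r hr]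
    refine (prod_eq_one fun a _ => prod_eq_one fun j _ => ?_).le
    unfold χ
    split_ifs with h1 h2
    exacts [rfl, absurd (hr a j h1) h2, rfl]
  · push Not at hr
    obtain ⟨a, j, b1, b2⟩ := hr
    rw [prod_eq_zero (mem_univ a) (prod_eq_zero (mem_univ j) (by simp [χ, b1, b2]))]
    exact clue_nonneg _ _

theorem result : ∃ (V : ℕ → Type) (_ : ∀ n, Fintype (V n)) (_ : ∀ n, DecidableEq (V n))
    (f : ∀ n, (V n → Bool) → ℝ), Tendsto (fun n => Fintype.card (V n)) atTop atTop ∧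
      (∀ n ω, f n ω = 1 ∨ f n ω = -1) ∧ (∀ n, Monotone (f n)) ∧
      (∀ n, 1 / 2 ≤ Var (1 / 2) (f n)) ∧
      (∀ ε, 0 < ε → ε < 1 → Tendsto (fun n => noise (1 / 2) (f n) ε) atTop (𝓝 0)) ∧
      ∀ δ, 0 < δ → δ < 1 → (∀ n, 0 < cp (1 / 2) (f n) δ) ∧
        Tendsto (fun n => E δ (clue (1 / 2) (f n)) / cp (1 / 2) (f n) δ) atTop atTop := by
  obtain ⟨M, hM⟩ : ∃ M : ℕ → ℕ, ∀ k, M k = (k + 1) * ((k + 1) * ((k + 1) ^ (k + 1)) ^ 2 ^ (k + 1)) :=
    ⟨_, fun _ => rfl⟩
  have h : ∀ k, k + 1 ≤ M k := fun k => hM k ▸ Nat.le_mul_of_pos_right _ (by positivity)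
  refine ⟨fun k => Fin (2 ^ (k + 1)) × Fin (M k), fun _ => inferInstance, fun _ => inferInstance,
    fun k => tr (k + 1) (2 ^ (k + 1)) (M k), ?_, fun k ω => ?_, fun k ω η hle => ?_,
    fun k => Vlow k _ (h k), Nlim M h, fun δ h0 h1 => ?_⟩
  · refine tendsto_atTop_mono (fun k => ?_) tendsto_id
    simp only [Fintype.card_prod, Fintype.card_fin, id]
    exact ((Nat.le_succ k).trans (h k)).trans (Nat.le_mul_of_pos_left _ (by positivity))
  · dsimp only [tr]
    split_ifs <;> simp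
  · dsimp only [tr]
    split_ifs with a b
    · rfl
    · obtain ⟨x, a⟩ := a
      exact absurd ⟨x, fun j hj => Bool.eq_true_of_true_le (a j hj ▸ hle (x, j))⟩ b
    · norm_num
    · rfl
  · have H := fun k => main (k + 1) (2 ^ (k + 1)) (M k) (h k) (by have := h k; omega)
      (by positivity) (lt_of_lt_of_le (by norm_num) (Vlow k _ (h k))) δ h0 h1
    refine ⟨fun k => (H k).1, tendsto_atTop_mono' _ ?_ tendsto_natCast_atTop_atTop⟩
    obtain ⟨K, hK⟩ := exists_nat_gt (1 / δ)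
    filter_upwards [eventually_ge_atTop K] with k hk
    obtain ⟨a1, a2, a3⟩ := H k
    have hk' : (K : ℝ) ≤ k := by exact_mod_cast hk
    rw [div_lt_iff₀ h0] at hK
    have b1 : 1 ≤ δ * (k + 1) := by nlinarith
    have b2 : 1 ≤ (δ ^ (k + 1)) ^ 2 ^ (k + 1) * (((k : ℝ) + 1) ^ (k + 1)) ^ 2 ^ (k + 1) := by
      rw [← mul_pow, ← mul_pow]
      exact one_le_pow₀ (one_le_pow₀ b1)
    rw [le_div_iff₀ a1]
    refine le_trans ?_ a3
    rw [le_div_iff₀ (by have := h k; exact_mod_cast (by omega : 0 < M k))] at a2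
    have b3 : (M k : ℝ) = (k + 1) * ((k + 1) * (((k : ℝ) + 1) ^ (k + 1)) ^ 2 ^ (k + 1)) := by
      rw [hM]; push_cast; rfl
    rw [b3] at a2
    push_cast at a2
    have p0 : 0 < (((k : ℝ) + 1) ^ (k + 1)) ^ 2 ^ (k + 1) := by positivity
    generalize (((k : ℝ) + 1) ^ (k + 1)) ^ 2 ^ (k + 1) = P at *
    generalize (δ ^ (k + 1)) ^ 2 ^ (k + 1) = D at *
    generalize cp (1 / 2) (tr (k + 1) (2 ^ (k + 1)) (M k)) δ = c at *
    have k0 : (0 : ℝ) < k + 1 := by positivity
    have b4 : c * (k + 1) * P ≤ 1 := le_of_mul_le_mul_left (by nlinarith) k0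
    have b5 : c * (k + 1) ≤ D := le_of_mul_le_mul_right (b4.trans b2) p0
    nlinarith

end Pool.Agent.Results.MP_b26fee_pr.No
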